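import Pool.Agent.Y58.HT.Stm4

/-! Job HT2-UP: embedding into `PGL(2, L)`, `L` an ultraproduct of fields (helper592). -/

set_option autoImplicit false

universe u

namespace Pool.Agent.Y592.HT

open Matrix H361P
open scoped MatrixGroups

section

variable {ι : Type u} (K : ι → Type u) [∀ i, Field (K i)] (U : Ultrafilter ι)

/-- the families which vanish almost everywhere -/
def M : Ideal (∀ i, K i) where
  carrier := {x | ∀ᶠ i in (U : Filter ι), x i = 0}
  add_mem' := by
    intro x y hx hy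
    have hx' : ∀ᶠ i in (U : Filter ι), x i = 0 := hx
    have hy' : ∀ᶠ i in (U : Filter ι), y i = 0 := hy
    filter_upwards [hx', hy'] with i h1 h2
    rw [Pi.add_apply, h1, h2, add_zero]
  zero_mem' := Filter.Eventually.of_forall fun _ => rfl
  smul_mem' := by
    intro c x hx
    have hx' : ∀ᶠ i in (U : Filter ι), x i = 0 := hx
    filter_upwards [hx'] with i h1
    rw [Pi.smul_apply', h1, smul_zero]

theorem mem_M {x : ∀ i, K i} : x ∈ M K U ↔ ∀ᶠ i in (U : Filter ι), x i = 0 := Iff.rfl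

theorem M_max : (M K U).IsMaximal := by
  classical
  rw [Ideal.isMaximal_iff]
  constructor
  · intro h
    have h1 : ∀ᶠ i in (U : Filter ι), (1 : ∀ i, K i) i = 0 := h
    obtain ⟨i, hi⟩ := h1.exists
    exact one_ne_zero hi
  · intro J x hMJ hxM hxJ
    let y : ∀ i, K i := fun i => (x i)⁻¹
    have hU : ∀ᶠ i in (U : Filter ι), x i ≠ 0 := by
      have h1 : ¬ ∀ᶠ i in (U : Filter ι), x i = 0 := hxM
      exact Ultrafilter.eventually_not.2 h1
    have h2 : 1 - y * x ∈ M K U := by
      show ∀ᶠ i in (U : Filter ι), (1 - y * x) i = 0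
      filter_upwards [hU] with i hi
      show 1 - (x i)⁻¹ * x i = 0
      rw [inv_mul_cancel₀ hi, sub_self]
    have h3 : (1 : ∀ i, K i) = (1 - y * x) + y * x := by ring
    rw [h3]
    exact J.add_mem (hMJ h2) (J.mul_mem_left _ hxJ)

/-- the matrix of the classes -/
noncomputable def T : (∀ i, Matrix (Fin 2) (Fin 2) (K i)) →*
    Matrix (Fin 2) (Fin 2) ((∀ i, K i) ⧸ M K U) where
  toFun A := Matrix.of fun r c => Ideal.Quotient.mk (M K U) (fun i => A i r c)
  map_one' := by
    ext r c
    rw [Matrix.of_apply]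
    by_cases h : r = c
    · subst h
      rw [Matrix.one_apply_eq, ← map_one (Ideal.Quotient.mk (M K U))]
      congr 1
      funext i
      simp
    · rw [Matrix.one_apply_ne h, ← map_zero (Ideal.Quotient.mk (M K U))]
      congr 1
      funext i
      simp [h]
  map_mul' A B := by
    ext r c
    rw [Matrix.mul_apply, Fin.sum_univ_two]
    simp only [Matrix.of_apply]
    rw [← map_mul, ← map_mul, ← map_add]
    congr 1
    funext i
    show (A i * B i) r c = A i r 0 * B i 0 c + A i r 1 * B i 1 c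
    rw [Matrix.mul_apply, Fin.sum_univ_two]

/-- for invertible matrices -/
noncomputable def Tu : (∀ i, GL (Fin 2) (K i)) →* GL (Fin 2) ((∀ i, K i) ⧸ M K U) :=
  (Units.map (T K U)).comp
    (MulEquiv.piUnits (M := fun i => Matrix (Fin 2) (Fin 2) (K i))).symm.toMonoidHom

theorem Tu_apply (a : ∀ i, GL (Fin 2) (K i)) (r c : Fin 2) :
    (Tu K U a) r c = Ideal.Quotient.mk (M K U) (fun i => (a i) r c) := rfl

end

theorem mk_Tu {ι : Type u} (K : ι → Type u) [∀ i, Field (K i)] (U : Ultrafilter ι)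
    (L : Type u) [Field L] (e : ((∀ i, K i) ⧸ M K U) ≃+* L) (a : ∀ i, GL (Fin 2) (K i)) :
    ProjGenLinGroup.mk (GeneralLinearGroup.map (n := Fin 2) e.toRingHom (Tu K U a)) = 1 ↔
      ∀ᶠ i in (U : Filter ι), ProjGenLinGroup.mk (a i) = 1 := by
  have hent : ∀ r c, (GeneralLinearGroup.map (n := Fin 2) e.toRingHom (Tu K U a)) r c =
      e (Ideal.Quotient.mk (M K U) (fun i => (a i) r c)) := fun r c => rfl
  constructor
  · intro h
    obtain ⟨h1, h2, h3⟩ := entries_of_mk_eq_one _ h
    rw [hent, map_eq_zero_iff e e.injective, Ideal.Quotient.eq_zero_iff_mem, mem_M] at h1 h2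
    rw [hent, hent, e.injective.eq_iff, Ideal.Quotient.eq, mem_M] at h3
    filter_upwards [h1, h2, h3] with i e1 e2 e3
    exact mk_eq_one_of_entries _ e1 e2 (sub_eq_zero.1 e3)
  · intro h
    refine mk_eq_one_of_entries _ ?_ ?_ ?_
    · rw [hent, map_eq_zero_iff e e.injective, Ideal.Quotient.eq_zero_iff_mem, mem_M]
      filter_upwards [h] with i hi
      exact (entries_of_mk_eq_one _ hi).1
    · rw [hent, map_eq_zero_iff e e.injective, Ideal.Quotient.eq_zero_iff_mem, mem_M]
      filter_upwards [h] with i hi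
      exact (entries_of_mk_eq_one _ hi).2.1
    · rw [hent, hent, e.injective.eq_iff, Ideal.Quotient.eq, mem_M]
      filter_upwards [h] with i hi
      exact sub_eq_zero.2 (entries_of_mk_eq_one _ hi).2.2

theorem t_up : Pool.Agent.Y58.HT.S_UP.{u} := by
  classical
  intro G _ ι K _ f U
  have := M_max K U
  letI : Field ((∀ i, K i) ⧸ M K U) := Ideal.Quotient.field (M K U)
  have hm : ∀ (g : G) (i : ι), ∃ A : GL (Fin 2) (K i), ProjGenLinGroup.mk A = f i g :=
    fun g i => ProjGenLinGroup.mk_surjective _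
  choose m hm using hm
  let e : ((∀ i, K i) ⧸ M K U) ≃+* ((∀ i, K i) ⧸ M K U) := RingEquiv.refl _
  let ψ : (∀ i, GL (Fin 2) (K i)) →* PGL(2, (∀ i, K i) ⧸ M K U) :=
    (ProjGenLinGroup.mk).comp ((GeneralLinearGroup.map (n := Fin 2) e.toRingHom).comp (Tu K U))
  have hψ : ∀ a : ∀ i, GL (Fin 2) (K i), ψ a = 1 ↔
      ∀ᶠ i in (U : Filter ι), ProjGenLinGroup.mk (a i) = 1 := fun a => mk_Tu K U _ e a
  refine ⟨(∀ i, K i) ⧸ M K U, inferInstance, MonoidHom.mk' (fun g => ψ (fun i => m g i)) ?_, ?_⟩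
  · intro g h
    rw [← map_mul, ← div_eq_one, ← map_div, hψ]
    refine Filter.Eventually.of_forall fun i => ?_
    rw [Pi.div_apply, Pi.mul_apply, map_div, map_mul, hm, hm, hm, map_mul, div_self']
  · intro g
    show ψ (fun i => m g i) = 1 ↔ _
    rw [hψ]
    simp only [hm]

end Pool.Agent.Y592.HT
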